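import Pool.Agent.W5h38.PQ.Poin

/-!
# Nef line bundles on primitive symplectic torus quotients are semiample
-/

set_option autoImplicit false

namespace Pool.Agent.W5h38.PQ

open Pool.Agent.W594.SYZ2 Pool.Agent.W594.SYZ2.TQ Pool.Agent.TH128.SYZ

section Defs

variable {V : Type*} [NormedAddCommGroup V] [NormedSpace ℂ V] {Γ : Subgroup (V ≃ᵃ[ℂ] V)}

/-- The line bundle `L` on `X = V / Γ` is semiample: for some `m ≥ 1` the power `L ^ m` is generated
by its global sections, that is, for every point `v` there is a global holomorphic section of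
`L ^ m` that does not vanish at `v`. -/
def IsSemiample (L : LineBundle Γ) : Prop :=
  ∃ m : ℕ, 1 ≤ m ∧ ∀ v : V, ∃ s, (L.pow m).IsSection s ∧ s v ≠ 0

/-- The line bundle `L` on `X = V / Γ` is `ℚ`-effective: some power `L ^ m` with `m ≥ 1` has a
nonzero global holomorphic section. -/
def IsQEffective (L : LineBundle Γ) : Prop :=
  ∃ m : ℕ, 1 ≤ m ∧ ∃ s, (L.pow m).IsSection s ∧ s ≠ 0

end Defs

variable {V : Type*} [NormedAddCommGroup V] [NormedSpace ℂ V] [FiniteDimensional ℂ V]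
  {Γ : Subgroup (V ≃ᵃ[ℂ] V)} {L : LineBundle Γ} {H : V → V → ℂ} {F : V → ℂ}

omit [FiniteDimensional ℂ V] in
theorem pow_section {k : ℕ} {s : V → ℂ} (hs : (L.pow k).IsSection s) (j : ℕ) :
    (L.pow (k * j)).IsSection (fun v => s v ^ j) where
  holo := hs.holo.pow j
  eq γ v := by
    show s ((γ : V ≃ᵃ[ℂ] V) v) ^ j = L.e γ v ^ (k * j) * s v ^ j
    rw [hs.eq, mul_pow, pow_mul]
    rfl

theorem semi_pos (hΓ : IsTorusQuotient Γ) (hc : IsChernForm L H) (hp : IsPositiveForm H) :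
    IsSemiample L := by
  classical
  have : ProperSpace V := FiniteDimensional.proper ℂ V
  obtain ⟨hH, F, hF⟩ := hc
  have hF : IsPot L H F := hF
  have hex : ∀ w : V, ∃ (k : ℕ) (s : V → ℂ), 1 ≤ k ∧ (L.pow k).IsSection s ∧ s w ≠ 0 := by
    intro w
    obtain ⟨k, hk, h⟩ := exists_theta_ne hΓ hH hF hp w
    exact ⟨k, _, hk, section_theta hΓ hH hF hp k hk w, mul_ne_zero (Complex.exp_ne_zero _) h⟩
  choose k s hk hs hsw using hex
  obtain ⟨C, hC⟩ := cobounded (latt Γ) hΓ.span_top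
  have hK : IsCompact (Metric.closedBall (0 : V) C) := isCompact_closedBall _ _
  obtain ⟨t, ht⟩ := hK.elim_finite_subcover (fun w => {v | s w v ≠ 0})
    (fun w => isOpen_ne_fun (hs w).holo.continuous continuous_const)
    (fun v _ => Set.mem_iUnion.2 ⟨v, hsw v⟩)
  refine ⟨∏ w ∈ t, k w, Nat.succ_le_of_lt (Finset.prod_pos fun w _ => hk w), fun v => ?_⟩
  obtain ⟨b, hb, hbC⟩ := hC v
  have h1 := ht (mem_closedBall_zero_iff.2 hbC)
  obtain ⟨w, hw, h2⟩ := Set.mem_iUnion₂.1 h1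
  refine ⟨fun x => s w x ^ (∏ w' ∈ t.erase w, k w'), ?_, ?_⟩
  · rw [← Finset.mul_prod_erase t k hw]
    exact pow_section (hs w) _
  · have h3 := (hs w).eq (tr b hb) v
    rw [tr_apply] at h3
    refine pow_ne_zero _ fun h0 => h2 ?_
    rw [h3, h0, mul_zero]

theorem semi_nef (hΓ : IsPrimitiveSymplectic Γ) (hc : IsChernForm L H) (hn : IsNefForm H) :
    IsSemiample L := by
  by_cases hd : IsDegenerateForm H
  · obtain ⟨h1, h2⟩ := main hΓ L H hc hn hd
    by_cases h0 : ∀ v w, H v w = 0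
    · obtain ⟨m, hm, s, hs, hne⟩ := h1.1 h0
      exact ⟨m, hm, fun v => ⟨s, hs, hne v⟩⟩
    · push Not at h0
      obtain ⟨n, Δ, π, -, hfib, m, hm, A, HA, hA, hpA, h, hh, hne, heq⟩ := h2 h0
      obtain ⟨k, hk, hsec⟩ := semi_pos hfib.base hA hpA
      refine ⟨m * k, Nat.mul_pos hm hk, fun v => ?_⟩
      obtain ⟨s, hs, hsv⟩ := hsec (π v)
      refine ⟨fun x => s (π x) / h x ^ k, ⟨?_, ?_⟩, div_ne_zero hsv (pow_ne_zero _ (hne v))⟩
      · have hπ : Differentiable ℂ (fun x => π x) :=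
          (LinearMap.toContinuousLinearMap π).differentiable
        have h3 : Differentiable ℂ (fun x => (h x ^ k)⁻¹) :=
          (hh.pow k).inv (fun x => pow_ne_zero _ (hne x))
        have h4 : Differentiable ℂ (fun x => s (π x)) := hs.holo.comp hπ
        exact h4.mul h3
      · intro γ x
        obtain ⟨δ, hδ, hδπ⟩ := hfib.maps γ γ.2
        have e4 : h ((γ : V ≃ᵃ[ℂ] V) x) * L.e γ x ^ m = A.e ⟨δ, hδ⟩ (π x) * h x :=
          heq γ ⟨δ, hδ⟩ hδπ x
        have e3 : s (π ((γ : V ≃ᵃ[ℂ] V) x)) = A.e ⟨δ, hδ⟩ (π x) ^ k * s (π x) := by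
          rw [← hδπ x]
          exact hs.eq ⟨δ, hδ⟩ (π x)
        show s (π ((γ : V ≃ᵃ[ℂ] V) x)) / h ((γ : V ≃ᵃ[ℂ] V) x) ^ k =
          L.e γ x ^ (m * k) * (s (π x) / h x ^ k)
        have n1 : h x ^ k ≠ 0 := pow_ne_zero _ (hne x)
        have n2 : h ((γ : V ≃ᵃ[ℂ] V) x) ^ k ≠ 0 := pow_ne_zero _ (hne _)
        have e5 : h ((γ : V ≃ᵃ[ℂ] V) x) ^ k * (L.e γ x ^ m) ^ k =
            A.e ⟨δ, hδ⟩ (π x) ^ k * h x ^ k := by
          rw [← mul_pow, ← mul_pow, e4]
        rw [e3, pow_mul, ← mul_div_assoc, div_eq_div_iff n2 n1]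
        linear_combination (-s (π x)) * e5
  · refine semi_pos hΓ.torus hc fun v hv => ?_
    by_contra hle
    exact hd ⟨v, hv, h_isotropic hc.1 hn v (le_antisymm (not_lt.1 hle) (hn v))⟩

omit [FiniteDimensional ℂ V] in
theorem chern_pow (hc : IsChernForm L H) (m : ℕ) :
    IsChernForm (L.pow m) (fun v w => (m : ℂ) * H v w) := by
  obtain ⟨hH, F, hF, h⟩ := hc
  have e : ∀ z : ℂ, ((m : ℂ) * z).re = m * z.re := fun z => by simp
  refine ⟨⟨?_, ?_, ?_⟩, fun v => m * F v, hF.const_mul _, fun γ v => ?_⟩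
  · intro u v w
    show (m : ℂ) * H (u + v) w = m * H u w + m * H v w
    rw [hH.add_left, mul_add]
  · intro a v w
    show (m : ℂ) * H (a • v) w = a * (m * H v w)
    rw [hH.smul_left]
    ring
  · intro v w
    show (m : ℂ) * H w v = starRingEnd ℂ (m * H v w)
    rw [hH.symm v w, map_mul, Complex.conj_natCast]
  · show ‖L.e γ v ^ m‖ ^ 2 = _
    rw [norm_pow, ← pow_mul, mul_comm m 2, pow_mul, h, ← Real.exp_nat_mul]
    congr 1
    simp only [e]
    ring

theorem nef_of_qeff (hΓ : IsTorusQuotient Γ) (hc : IsChernForm L H) (h : IsQEffective L) :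
    IsNefForm H := by
  obtain ⟨m, hm, s, hs, hs0⟩ := h
  have h1 := (psef_iff_nef hΓ (chern_pow hc m)).1 (psef_of_section hs hs0)
  have hm0 : (0 : ℝ) < m := by exact_mod_cast hm
  intro v
  have h2 := h1 v
  have h3 : ((m : ℂ) * H v v).re = m * (H v v).re := by simp
  rw [h3] at h2
  exact nonneg_of_mul_nonneg_right h2 hm0

omit [FiniteDimensional ℂ V] in
theorem qeff_of_semi (h : IsSemiample L) : IsQEffective L := by
  obtain ⟨m, hm, hs⟩ := h
  obtain ⟨s, h1, h2⟩ := hs 0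
  exact ⟨m, hm, s, h1, fun h0 => h2 (by rw [h0]; rfl)⟩

end Pool.Agent.W5h38.PQ
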