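import Pool.Agent.W5h38.PQ.Sum
import Pool.Agent.HopfPinch.AnN
import Pool.Agent.TH128.SYZ.PsefConv

/-!
# Poincaré series on torus quotients
-/

set_option autoImplicit false

open Filter Topology

namespace Pool.Agent.W5h38.PQ

open Pool.Agent.W594.SYZ2 Pool.Agent.W594.SYZ2.TQ

variable {V : Type*} [NormedAddCommGroup V] [NormedSpace ℂ V] [FiniteDimensional ℂ V]
  {Γ : Subgroup (V ≃ᵃ[ℂ] V)} {L : LineBundle Γ} {H : V → V → ℂ} {F : V → ℂ}

theorem diff_tsum {ι : Type*} [Countable ι] {f : ι → V → ℂ} {u : ι → ℝ} (hu : Summable u)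
    {U : Set V} (hU : IsOpen U) (hf : ∀ i, DifferentiableOn ℂ (f i) U)
    (hfu : ∀ i x, x ∈ U → ‖f i x‖ ≤ u i) : DifferentiableOn ℂ (fun x => ∑' i, f i x) U := by
  obtain ⟨e, he⟩ := exists_injective_nat ι
  have h1 : (fun x => ∑' i, f i x) =
      fun x => ∑' n, Function.extend e (fun i => f i x) (fun _ => 0) n := by
    funext x
    rw [← he.tsum_eq (f := Function.extend e (fun i => f i x) (fun _ => 0))]
    · exact tsum_congr fun i => (he.extend_apply (fun i => f i x) (fun _ => 0) i).symm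
    · intro n hn
      by_contra h
      exact hn (Function.extend_apply' _ _ _ h)
  rw [h1]
  have hu' : Summable (Function.extend e u (fun _ => 0)) := by
    rw [← he.summable_iff (f := Function.extend e u (fun _ => 0))
      (fun n hn => Function.extend_apply' u (fun _ => 0) n hn)]
    rw [Function.extend_comp he]
    exact hu
  refine Pool.Agent.HP.nof_differentiableOn_tsum hu' hU (fun n => ?_) (fun n x hx => ?_)
  · by_cases h : ∃ i, e i = n
    · obtain ⟨i, rfl⟩ := h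
      simp_rw [he.extend_apply]
      exact hf i
    · simp_rw [Function.extend_apply' _ _ _ h]
      exact differentiableOn_const 0
  · by_cases h : ∃ i, e i = n
    · obtain ⟨i, rfl⟩ := h
      rw [he.extend_apply, he.extend_apply]
      exact hfu i x hx
    · rw [Function.extend_apply' _ _ _ h, Function.extend_apply' _ _ _ h, norm_zero]

theorem Q_cont (hH : IsHermitian H) : Continuous fun v => (H v v).re := by
  have : FiniteDimensional ℝ V := FiniteDimensional.complexToReal V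
  let B : V →ₗ[ℝ] V →ₗ[ℝ] ℝ := LinearMap.mk₂ ℝ (fun x y => (H x y).re)
    (fun x x' y => by rw [hH.add_left, Complex.add_re])
    (fun c x y => by
      have : c • x = (c : ℂ) • x := (Complex.coe_smul c x).symm
      rw [this, hH.smul_left, Complex.re_ofReal_mul, smul_eq_mul])
    (fun x y y' => by rw [h_add_right hH, Complex.add_re])
    (fun c x y => by
      have : c • y = (c : ℂ) • y := (Complex.coe_smul c y).symm
      rw [this, h_smul_right hH, Complex.conj_ofReal, Complex.re_ofReal_mul, smul_eq_mul])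
  have h1 : (fun v => (H v v).re) = fun v => B v v := rfl
  rw [h1]
  let B' : V →L[ℝ] V →L[ℝ] ℝ := LinearMap.toContinuousLinearMap
    ((LinearMap.toContinuousLinearMap : (V →ₗ[ℝ] ℝ) ≃ₗ[ℝ] (V →L[ℝ] ℝ)).toLinearMap ∘ₗ B)
  have h2 : (fun v => B v v) = fun v => B' v v := rfl
  rw [h2]
  exact (B'.continuous).clm_apply continuous_id

theorem h_diag_sub (hH : IsHermitian H) (x y : V) :
    (H (x - y) (x - y)).re = (H x x).re + (H y y).re - 2 * (H x y).re := by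
  have e : x - y = x + (-1 : ℂ) • y := by rw [neg_one_smul, sub_eq_add_neg]
  rw [e, h_diag_add hH, h_diag_smul hH, h_smul_right hH]
  simp
  ring

theorem Q_bounds (hH : IsHermitian H) (hp : IsPositiveForm H) :
    ∃ c C : ℝ, 0 < c ∧ 0 ≤ C ∧ ∀ v, c * ‖v‖ ^ 2 ≤ (H v v).re ∧ (H v v).re ≤ C * ‖v‖ ^ 2 := by
  have : ProperSpace V := FiniteDimensional.proper ℂ V
  have hS : IsCompact (Metric.sphere (0 : V) 1) := isCompact_sphere _ _
  have hc := Q_cont hH
  have h0 : (H 0 0).re = 0 := by rw [h_zero_left hH]; rfl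
  rcases (Metric.sphere (0 : V) 1).eq_empty_or_nonempty with he | hne
  · refine ⟨1, 0, one_pos, le_rfl, fun v => ?_⟩
    have hv : v = 0 := by
      by_contra h
      have h1 : ((‖v‖⁻¹ : ℝ) : ℂ) • v ∈ Metric.sphere (0 : V) 1 := by
        rw [mem_sphere_zero_iff_norm, norm_smul, Complex.norm_real, norm_inv, norm_norm,
          inv_mul_cancel₀ (norm_ne_zero_iff.2 h)]
      rw [he] at h1
      exact h1
    subst hv
    rw [h0, norm_zero]
    norm_num
  · obtain ⟨x, hx, hmin⟩ := hS.exists_isMinOn hne hc.continuousOn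
    obtain ⟨y, hy, hmax⟩ := hS.exists_isMaxOn hne hc.continuousOn
    have hx0 : x ≠ 0 := by
      rintro rfl
      rw [mem_sphere_zero_iff_norm, norm_zero] at hx
      exact zero_ne_one hx
    have hy0 : y ≠ 0 := by
      rintro rfl
      rw [mem_sphere_zero_iff_norm, norm_zero] at hy
      exact zero_ne_one hy
    refine ⟨(H x x).re, (H y y).re, hp x hx0, (hp y hy0).le, fun v => ?_⟩
    by_cases hv : v = 0
    · subst hv
      rw [h0, norm_zero]
      norm_num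
    · have hn : ‖v‖ ≠ 0 := norm_ne_zero_iff.2 hv
      have h1 : ((‖v‖⁻¹ : ℝ) : ℂ) • v ∈ Metric.sphere (0 : V) 1 := by
        rw [mem_sphere_zero_iff_norm, norm_smul, Complex.norm_real, norm_inv, norm_norm,
          inv_mul_cancel₀ hn]
      have h2 : (H x x).re ≤ (H (((‖v‖⁻¹ : ℝ) : ℂ) • v) (((‖v‖⁻¹ : ℝ) : ℂ) • v)).re := hmin h1
      have h3 : (H (((‖v‖⁻¹ : ℝ) : ℂ) • v) (((‖v‖⁻¹ : ℝ) : ℂ) • v)).re ≤ (H y y).re := hmax h1
      rw [h_diag_smul hH, Complex.norm_real, norm_inv, norm_norm] at h2 h3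
      have h4 : 0 < ‖v‖ ^ 2 := by positivity
      have h5 : (‖v‖⁻¹ ^ 2 * (H v v).re) * ‖v‖ ^ 2 = (H v v).re := by
        field_simp
      constructor
      · calc (H x x).re * ‖v‖ ^ 2 ≤ (‖v‖⁻¹ ^ 2 * (H v v).re) * ‖v‖ ^ 2 :=
              mul_le_mul_of_nonneg_right h2 h4.le
          _ = _ := h5
      · calc (H v v).re = (‖v‖⁻¹ ^ 2 * (H v v).re) * ‖v‖ ^ 2 := h5.symm
          _ ≤ _ := mul_le_mul_of_nonneg_right h3 h4.le

theorem lin_bound (hΓ : IsTorusQuotient Γ) :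
    ∃ M : ℝ, 0 ≤ M ∧ ∀ (γ : Γ) (v : V), ‖(γ : V ≃ᵃ[ℂ] V).linear v‖ ≤ M * ‖v‖ := by
  have hfin : Finite (Lin Γ) := finite_Lin hΓ
  obtain ⟨M, hM⟩ := (Set.finite_range (fun g : Lin Γ =>
    ‖LinearMap.toContinuousLinearMap ((g : V ≃ₗ[ℂ] V) : V →ₗ[ℂ] V)‖)).bddAbove
  refine ⟨max M 0, le_max_right _ _, fun γ v => ?_⟩
  have h1 : ‖LinearMap.toContinuousLinearMap (((lp γ : Lin Γ) : V ≃ₗ[ℂ] V) : V →ₗ[ℂ] V)‖ ≤ M :=
    hM ⟨lp γ, rfl⟩
  have h2 := (LinearMap.toContinuousLinearMap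
    (((lp γ : Lin Γ) : V ≃ₗ[ℂ] V) : V →ₗ[ℂ] V)).le_opNorm v
  exact h2.trans (mul_le_mul_of_nonneg_right (h1.trans (le_max_left _ _)) (norm_nonneg _))

/-- the terms of the Poincaré series -/
noncomputable def term (L : LineBundle Γ) (F : V → ℂ) (H : V → V → ℂ) (k : ℕ) (w : V) (γ : Γ)
    (v : V) : ℂ :=
  (tw L F γ v)⁻¹ ^ k * Complex.exp (Real.pi * k * H ((γ : V ≃ᵃ[ℂ] V) v) w)

theorem term_norm (hH : IsHermitian H) (hF : IsPot L H F) (k : ℕ) (w : V) (γ : Γ) (v : V) :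
    ‖term L F H k w γ v‖ = Real.exp (k * Real.pi / 2 * ((H v v).re + (H w w).re)) *
      Real.exp (-(k * Real.pi / 2 *
        (H ((γ : V ≃ᵃ[ℂ] V) v - w) ((γ : V ≃ᵃ[ℂ] V) v - w)).re)) := by
  have h1 : ‖tw L F γ v‖ = Real.exp (Real.pi / 2 *
      ((H ((γ : V ≃ᵃ[ℂ] V) v) ((γ : V ≃ᵃ[ℂ] V) v)).re - (H v v).re)) := by
    have h2 := tw_norm hF γ v
    have h3 : (Real.exp (Real.pi / 2 *
      ((H ((γ : V ≃ᵃ[ℂ] V) v) ((γ : V ≃ᵃ[ℂ] V) v)).re - (H v v).re))) ^ 2 =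
      Real.exp (Real.pi * ((H ((γ : V ≃ᵃ[ℂ] V) v) ((γ : V ≃ᵃ[ℂ] V) v)).re - (H v v).re)) := by
      rw [← Real.exp_nat_mul]
      congr 1
      push_cast
      ring
    rw [← h3] at h2
    exact (sq_eq_sq₀ (norm_nonneg _) (Real.exp_pos _).le).1 h2
  have h4 : (Real.pi * k * H ((γ : V ≃ᵃ[ℂ] V) v) w : ℂ).re =
      Real.pi * k * (H ((γ : V ≃ᵃ[ℂ] V) v) w).re := by
    have : (Real.pi * k * H ((γ : V ≃ᵃ[ℂ] V) v) w : ℂ) =
        ((Real.pi * k : ℝ) : ℂ) * H ((γ : V ≃ᵃ[ℂ] V) v) w := by push_cast; ring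
    rw [this, Complex.re_ofReal_mul]
  rw [term, norm_mul, norm_pow, norm_inv, h1, Complex.norm_exp, h4, ← Real.exp_neg,
    ← Real.exp_nat_mul, ← Real.exp_add, ← Real.exp_add, h_diag_sub hH]
  congr 1
  ring

theorem term_holo (hH : IsHermitian H) (hF : IsPot L H F) (k : ℕ) (w : V) (γ : Γ) :
    Differentiable ℂ (term L F H k w γ) := by
  have h1 : Differentiable ℂ (fun v => (tw L F γ v)⁻¹ ^ k) :=
    ((tw_holo hF.1 γ).inv (fun v => tw_ne_zero γ v)).pow k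
  have h2 : Differentiable ℂ (fun v => H ((γ : V ≃ᵃ[ℂ] V) v) w) := by
    have : (fun v => H ((γ : V ≃ᵃ[ℂ] V) v) w) = fun v =>
        LinearMap.toContinuousLinearMap (hl hH w ∘ₗ ((γ : V ≃ᵃ[ℂ] V).linear : V →ₗ[ℂ] V)) v
          + H ((γ : V ≃ᵃ[ℂ] V) 0) w := by
      funext v
      rw [act, hH.add_left]
      rfl
    rw [this]
    exact (ContinuousLinearMap.differentiable _).add_const _
  exact h1.mul ((h2.const_mul _).cexp)

theorem bound (hΓ : IsTorusQuotient Γ) (hH : IsHermitian H) (hF : IsPot L H F)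
    (hp : IsPositiveForm H) (k : ℕ) (hk : 1 ≤ k) (w : V) (R : ℝ) :
    ∃ u : Γ → ℝ, Summable u ∧ ∀ γ v, ‖v‖ < R → ‖term L F H k w γ v‖ ≤ u γ := by
  obtain ⟨c, C, hc, hC, hQ⟩ := Q_bounds hH hp
  obtain ⟨M, hM0, hM⟩ := lin_bound hΓ
  have hk0 : (0 : ℝ) < k := by exact_mod_cast hk
  have hpi := Real.pi_pos
  set R' : ℝ := M * R + ‖w‖ with hR'
  refine ⟨fun γ => Real.exp (k * Real.pi / 2 * (C * R ^ 2 + (H w w).re) +
      k * Real.pi / 2 * (c * R' ^ 2)) *
      Real.exp (-((k * Real.pi * c / 4) * ‖(γ : V ≃ᵃ[ℂ] V) 0‖ ^ 2)),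
    (sum_group hΓ (by positivity)).mul_left _, fun γ v hv => ?_⟩
  have hR0 : 0 ≤ R := (norm_nonneg v).trans hv.le
  rw [term_norm hH hF, ← Real.exp_add]
  show _ ≤ _ * _
  rw [← Real.exp_add]
  refine Real.exp_le_exp.2 ?_
  set x := (γ : V ≃ᵃ[ℂ] V) v - w with hx
  have h1 : ‖(γ : V ≃ᵃ[ℂ] V) 0‖ ≤ ‖x‖ + R' := by
    have e1 : (γ : V ≃ᵃ[ℂ] V) 0 = (x + w) - (γ : V ≃ᵃ[ℂ] V).linear v := by
      rw [hx, sub_add_cancel, act (γ : V ≃ᵃ[ℂ] V) v]
      abel
    rw [e1]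
    calc ‖(x + w) - (γ : V ≃ᵃ[ℂ] V).linear v‖ ≤ ‖x + w‖ + ‖(γ : V ≃ᵃ[ℂ] V).linear v‖ :=
          norm_sub_le _ _
      _ ≤ (‖x‖ + ‖w‖) + M * R := by
          refine add_le_add (norm_add_le _ _) ((hM γ v).trans ?_)
          exact mul_le_mul_of_nonneg_left hv.le hM0
      _ = ‖x‖ + R' := by rw [hR']; ring
  have hR'0 : 0 ≤ R' := by rw [hR']; positivity
  have h2 : ‖(γ : V ≃ᵃ[ℂ] V) 0‖ ^ 2 / 2 - R' ^ 2 ≤ ‖x‖ ^ 2 := by
    have h3 : ‖(γ : V ≃ᵃ[ℂ] V) 0‖ ^ 2 ≤ (‖x‖ + R') ^ 2 := pow_le_pow_left₀ (norm_nonneg _) h1 2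
    nlinarith [sq_nonneg (‖x‖ - R')]
  have h3 : c * (‖(γ : V ≃ᵃ[ℂ] V) 0‖ ^ 2 / 2 - R' ^ 2) ≤ (H x x).re :=
    (mul_le_mul_of_nonneg_left h2 hc.le).trans (hQ x).1
  have h4 : (H v v).re ≤ C * R ^ 2 :=
    (hQ v).2.trans (mul_le_mul_of_nonneg_left (pow_le_pow_left₀ (norm_nonneg _) hv.le 2) hC)
  have h5 : 0 < k * Real.pi / 2 := by positivity
  nlinarith [mul_le_mul_of_nonneg_left h3 h5.le, mul_le_mul_of_nonneg_left h4 h5.le]

/-- the Poincaré series -/
noncomputable def theta (L : LineBundle Γ) (F : V → ℂ) (H : V → V → ℂ) (k : ℕ) (w : V) (v : V) :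
    ℂ := ∑' γ : Γ, term L F H k w γ v

theorem countable_group (hΓ : IsTorusQuotient Γ) : Countable Γ := by
  have h := (sum_group hΓ one_pos).countable_support
  have h1 : Function.support (fun γ : Γ => Real.exp (-(1 * ‖(γ : V ≃ᵃ[ℂ] V) 0‖ ^ 2))) =
      Set.univ := by
    ext γ
    simp [(Real.exp_pos _).ne']
  rw [h1] at h
  exact Set.countable_univ_iff.1 h

theorem theta_holo (hΓ : IsTorusQuotient Γ) (hH : IsHermitian H) (hF : IsPot L H F)
    (hp : IsPositiveForm H) (k : ℕ) (hk : 1 ≤ k) (w : V) :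
    Differentiable ℂ (theta L F H k w) := by
  have := countable_group hΓ
  intro v
  obtain ⟨u, hu, hb⟩ := bound hΓ hH hF hp k hk w (‖v‖ + 1)
  have h := diff_tsum (f := fun γ v => term L F H k w γ v) hu
    (U := Metric.ball 0 (‖v‖ + 1)) Metric.isOpen_ball
    (fun γ => (term_holo hH hF k w γ).differentiableOn)
    (fun γ x hx => hb γ x (mem_ball_zero_iff.1 hx))
  exact h.differentiableAt (Metric.isOpen_ball.mem_nhds (mem_ball_zero_iff.2 (by linarith)))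

theorem theta_eq (k : ℕ) (w : V) (γ₀ : Γ) (v : V) :
    theta L F H k w ((γ₀ : V ≃ᵃ[ℂ] V) v) = tw L F γ₀ v ^ k * theta L F H k w v := by
  have h1 : ∀ γ : Γ, term L F H k w γ ((γ₀ : V ≃ᵃ[ℂ] V) v) =
      tw L F γ₀ v ^ k * term L F H k w (γ * γ₀) v := by
    intro γ
    have h2 := tw_mul (L := L) (F := F) γ γ₀ v
    have h3 : (((γ * γ₀ : Γ) : V ≃ᵃ[ℂ] V)) v = (γ : V ≃ᵃ[ℂ] V) ((γ₀ : V ≃ᵃ[ℂ] V) v) := rfl
    rw [term, term, h3, h2, mul_inv, mul_pow]
    have h4 : tw L F γ₀ v ^ k * (tw L F γ₀ v)⁻¹ ^ k = 1 := by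
      rw [← mul_pow, mul_inv_cancel₀ (tw_ne_zero γ₀ v), one_pow]
    linear_combination (-(tw L F γ ((γ₀ : V ≃ᵃ[ℂ] V) v))⁻¹ ^ k *
      Complex.exp (Real.pi * k * H ((γ : V ≃ᵃ[ℂ] V) ((γ₀ : V ≃ᵃ[ℂ] V) v)) w)) * h4
  show ∑' γ : Γ, term L F H k w γ ((γ₀ : V ≃ᵃ[ℂ] V) v) = _
  rw [tsum_congr h1, tsum_mul_left]
  congr 1
  exact (Equiv.mulRight γ₀).tsum_eq (fun γ => term L F H k w γ v)

theorem section_theta (hΓ : IsTorusQuotient Γ) (hH : IsHermitian H) (hF : IsPot L H F)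
    (hp : IsPositiveForm H) (k : ℕ) (hk : 1 ≤ k) (w : V) :
    (L.pow k).IsSection (fun v => Complex.exp (k * F v) * theta L F H k w v) where
  holo := ((hF.1.const_mul _).cexp).mul (theta_holo hΓ hH hF hp k hk w)
  eq γ v := by
    rw [theta_eq, tw, mul_pow, ← Complex.exp_nat_mul]
    show _ = L.e γ v ^ k * _
    have h : Complex.exp (k * F ((γ : V ≃ᵃ[ℂ] V) v)) *
        Complex.exp (k * (F v - F ((γ : V ≃ᵃ[ℂ] V) v))) = Complex.exp (k * F v) := by
      rw [← Complex.exp_add]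
      congr 1
      ring
    linear_combination (L.e γ v ^ k * theta L F H k w v) * h

theorem exists_theta_ne (hΓ : IsTorusQuotient Γ) (hH : IsHermitian H) (hF : IsPot L H F)
    (hp : IsPositiveForm H) (w : V) : ∃ k : ℕ, 1 ≤ k ∧ theta L F H k w w ≠ 0 := by
  classical
  have hpi := Real.pi_pos
  set a : Γ → ℝ := fun γ => Real.exp (-(Real.pi / 2 *
        (H ((γ : V ≃ᵃ[ℂ] V) w - w) ((γ : V ≃ᵃ[ℂ] V) w - w)).re)) with ha
  have ha0 : ∀ γ, 0 < a γ := fun γ => Real.exp_pos _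
  have hQ0 : ∀ x, 0 ≤ (H x x).re := by
    intro x
    by_cases hx : x = 0
    · subst hx
      rw [h_zero_left hH]
      exact le_rfl
    · exact (hp x hx).le
  have ha1 : ∀ γ, a γ ≤ 1 := fun γ => by
    rw [ha]
    refine Real.exp_le_one_iff.2 ?_
    have := mul_nonneg (half_pos hpi).le (hQ0 ((γ : V ≃ᵃ[ℂ] V) w - w))
    linarith
  have ha2 : ∀ γ : Γ, (γ : V ≃ᵃ[ℂ] V) w ≠ w → a γ < 1 := fun γ hγ => by
    rw [ha]
    refine Real.exp_lt_one_iff.2 ?_
    have := mul_pos (half_pos hpi) (hp _ (sub_ne_zero.2 hγ))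
    linarith
  have hnorm : ∀ (k : ℕ) γ, ‖term L F H k w γ w‖ = Real.exp (k * Real.pi * (H w w).re) * a γ ^ k := by
    intro k γ
    rw [term_norm hH hF, ha, ← Real.exp_nat_mul]
    congr 1
    · congr 1; ring
    · congr 1; ring
  have hsa : Summable a := by
    obtain ⟨u, hu, hb⟩ := bound hΓ hH hF hp 1 le_rfl w (‖w‖ + 1)
    have h1 : Summable fun γ => ‖term L F H 1 w γ w‖ :=
      Summable.of_nonneg_of_le (fun _ => norm_nonneg _) (fun γ => hb γ w (by linarith)) hu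
    have h2 := h1.mul_left (Real.exp ((1 : ℕ) * Real.pi * (H w w).re))⁻¹
    refine h2.congr fun γ => ?_
    rw [hnorm 1 γ, pow_one, ← mul_assoc, inv_mul_cancel₀ (Real.exp_pos _).ne', one_mul]
  set b : ℕ → Γ → ℝ := fun k γ => if (γ : V ≃ᵃ[ℂ] V) w = w then 0 else a γ ^ k with hb
  have hlim : Tendsto (fun k => ∑' γ, b k γ) atTop (𝓝 (∑' _ : Γ, (0 : ℝ))) := by
    refine tendsto_tsum_of_dominated_convergence hsa (fun γ => ?_) ?_
    · by_cases hγ : (γ : V ≃ᵃ[ℂ] V) w = w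
      · simp only [hb, if_pos hγ]
        exact tendsto_const_nhds
      · simp only [hb, if_neg hγ]
        exact tendsto_pow_atTop_nhds_zero_of_lt_one (ha0 γ).le (ha2 γ hγ)
    · filter_upwards [eventually_ge_atTop 1] with k hk γ
      by_cases hγ : (γ : V ≃ᵃ[ℂ] V) w = w
      · simp only [hb, if_pos hγ, norm_zero]
        exact (ha0 γ).le
      · simp only [hb, if_neg hγ]
        rw [Real.norm_eq_abs, abs_of_nonneg (pow_nonneg (ha0 γ).le k)]
        exact pow_le_of_le_one (ha0 γ).le (ha1 γ) (by omega)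
  rw [tsum_zero] at hlim
  obtain ⟨k, hk1, hk⟩ := ((hlim.eventually (gt_mem_nhds one_pos)).and
    (eventually_ge_atTop 1)).exists
  refine ⟨k, hk, fun h0 => ?_⟩
  set P := Real.exp (k * Real.pi * (H w w).re) with hP
  have hP0 : 0 < P := Real.exp_pos _
  obtain ⟨u, hu, hbd⟩ := bound hΓ hH hF hp k hk w (‖w‖ + 1)
  have hst : Summable fun γ => term L F H k w γ w :=
    Summable.of_norm_bounded hu (fun γ => hbd γ w (by linarith))
  have hre : Summable fun γ => (term L F H k w γ w).re := (Complex.hasSum_re hst.hasSum).summable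
  have hsb : Summable (b k) := by
    refine Summable.of_nonneg_of_le (fun γ => ?_) (fun γ => ?_) hsa
    · simp only [hb]
      split_ifs
      · exact le_rfl
      · exact pow_nonneg (ha0 γ).le k
    · simp only [hb]
      split_ifs
      · exact (ha0 γ).le
      · exact pow_le_of_le_one (ha0 γ).le (ha1 γ) (by omega)
  have hs1 : HasSum (fun γ : Γ => if γ = 1 then (1 : ℝ) else 0) 1 := hasSum_ite_eq 1 1
  have hlow : ∀ γ : Γ, P * ((if γ = 1 then (1 : ℝ) else 0) - b k γ) ≤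
      (term L F H k w γ w).re := by
    intro γ
    by_cases hγ : (γ : V ≃ᵃ[ℂ] V) w = w
    · have hb0 : b k γ = 0 := by simp only [hb, if_pos hγ]
      have h1 : term L F H k w γ w = (P : ℂ) := by
        rw [term, tw_stab γ w hγ, inv_one, one_pow, one_mul, hγ, hP, Complex.ofReal_exp]
        congr 1
        have h2 : H w w = ((H w w).re : ℂ) := by
          refine (Complex.conj_eq_iff_re.1 ?_).symm
          exact (hH.symm w w).symm
        conv_lhs => rw [h2]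
        push_cast
        ring
      rw [h1, Complex.ofReal_re, hb0, sub_zero]
      split_ifs
      · rw [mul_one]
      · rw [mul_zero]; exact hP0.le
    · have hb0 : b k γ = a γ ^ k := by simp only [hb, if_neg hγ]
      have hne : γ ≠ 1 := by
        rintro rfl
        exact hγ rfl
      rw [hb0, if_neg hne, zero_sub, mul_neg, ← hnorm k γ]
      exact (abs_le.1 (Complex.abs_re_le_norm _)).1
  have hsum := Summable.tsum_le_tsum hlow ((hs1.summable.sub hsb).mul_left P) hre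
  rw [tsum_mul_left, Summable.tsum_sub hs1.summable hsb, hs1.tsum_eq,
    ← Complex.re_tsum hst] at hsum
  have h3 : (∑' γ : Γ, term L F H k w γ w).re = 0 := by
    have : ∑' γ : Γ, term L F H k w γ w = 0 := h0
    rw [this]
    rfl
  rw [h3] at hsum
  have h4 : 0 < P * (1 - ∑' γ, b k γ) := mul_pos hP0 (by linarith)
  linarith

end Pool.Agent.W5h38.PQ
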