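import Pool.Agent.W594.SYZ.TQ6

/-!
# Summability over the group of a torus quotient
-/

set_option autoImplicit false

namespace Pool.Agent.W5h38.PQ

open Pool.Agent.W594.SYZ2 Pool.Agent.W594.SYZ2.TQ

variable {V : Type*} [NormedAddCommGroup V] [NormedSpace ℂ V] [FiniteDimensional ℂ V]
  {Γ : Subgroup (V ≃ᵃ[ℂ] V)}

theorem exp_le {κ t : ℝ} (hκ : 0 < κ) (ht : 0 < t) (n : ℕ) :
    Real.exp (-(κ * t ^ 2)) ≤ (n.factorial / κ ^ n) * (t⁻¹) ^ (2 * n) := by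
  have h1 := Real.pow_div_factorial_le_exp (κ * t ^ 2) (by positivity) n
  have h2 : 0 < (κ * t ^ 2) ^ n / n.factorial := by positivity
  rw [Real.exp_neg]
  refine (inv_anti₀ h2 h1).trans (le_of_eq ?_)
  rw [inv_div, mul_pow, ← pow_mul, inv_pow]
  field_simp

theorem sum_latt (hΓ : IsTorusQuotient Γ) {κ : ℝ} (hκ : 0 < κ) (x : V) :
    Summable fun b : latt Γ => Real.exp (-(κ * ‖(b : V) + x‖ ^ 2)) := by
  have : FiniteDimensional ℝ V := FiniteDimensional.complexToReal V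
  have hd : DiscreteTopology (AddSubgroup.toIntSubmodule (latt Γ)) := hΓ.discrete
  let n : ℕ := Module.finrank ℤ (AddSubgroup.toIntSubmodule (latt Γ)) + 1
  have h1 := ZLattice.summable_norm_sub_inv_pow (AddSubgroup.toIntSubmodule (latt Γ)) (2 * n)
    (by omega) (-x)
  have h2 : Summable fun b : latt Γ => (n.factorial / κ ^ n) * ‖(b : V) - (-x)‖⁻¹ ^ (2 * n) :=
    Summable.mul_left _ h1
  refine Summable.of_norm_bounded_eventually h2 ?_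
  have h3 : {b : latt Γ | (b : V) = -x}.Finite := by
    refine Set.Subsingleton.finite fun a ha b hb => Subtype.ext ?_
    rw [Set.mem_ofPred_eq] at ha hb
    rw [ha, hb]
  rw [Filter.eventually_cofinite]
  refine h3.subset fun b hb => ?_
  by_contra hne
  refine hb ?_
  have h4 : (b : V) + x ≠ 0 := fun h => hne (eq_neg_of_add_eq_zero_left h)
  rw [Real.norm_eq_abs, abs_of_pos (Real.exp_pos _), sub_neg_eq_add]
  exact exp_le hκ (norm_pos_iff.2 h4) n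

/-- the linear part -/
def lp (γ : Γ) : Lin Γ := ⟨(γ : V ≃ᵃ[ℂ] V).linear, mem_Lin.2 ⟨γ, γ.2, rfl⟩⟩

theorem sum_group (hΓ : IsTorusQuotient Γ) {κ : ℝ} (hκ : 0 < κ) :
    Summable fun γ : Γ => Real.exp (-(κ * ‖(γ : V ≃ᵃ[ℂ] V) 0‖ ^ 2)) := by
  have hfin : Finite (Lin Γ) := finite_Lin hΓ
  rw [← (Equiv.sigmaFiberEquiv (lp : Γ → Lin Γ)).summable_iff]
  refine (summable_sigma_of_nonneg (fun x => (Real.exp_pos _).le)).2
    ⟨fun y => ?_, Summable.of_finite⟩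
  obtain ⟨γ₀, hγ₀, hy⟩ := mem_Lin.1 y.2
  have key : ∀ γ : {x : Γ // lp x = y}, ∃ b : latt Γ,
      (γ : Γ) = tr (b : V) b.2 * ⟨γ₀, hγ₀⟩ := by
    rintro ⟨γ, hγ⟩
    have h1 : ∀ v, ((γ * (⟨γ₀, hγ₀⟩ : Γ)⁻¹ : Γ) : V ≃ᵃ[ℂ] V).linear v = v := by
      intro v
      have h2 : (γ : V ≃ᵃ[ℂ] V).linear = γ₀.linear := by
        rw [hy, ← hγ]; rfl
      show (γ : V ≃ᵃ[ℂ] V).linear (γ₀.linear.symm v) = v
      rw [h2, LinearEquiv.apply_symm_apply]
    obtain ⟨hb, h3⟩ := eq_tr _ h1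
    exact ⟨⟨_, hb⟩, by rw [← h3, inv_mul_cancel_right]⟩
  choose b hb using key
  have hinj : Function.Injective b := by
    intro γ γ' h
    refine Subtype.ext ?_
    rw [hb γ, hb γ', h]
  have h4 := (sum_latt hΓ hκ (γ₀ 0)).comp_injective hinj
  refine h4.congr fun γ => ?_
  have h5 : ((γ : Γ) : V ≃ᵃ[ℂ] V) 0 = (b γ : V) + γ₀ 0 := by
    conv_lhs => rw [hb γ]
    rfl
  show Real.exp (-(κ * ‖(b γ : V) + γ₀ 0‖ ^ 2)) = Real.exp (-(κ * ‖((γ : Γ) : V ≃ᵃ[ℂ] V) 0‖ ^ 2))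
  rw [h5]

end Pool.Agent.W5h38.PQ
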